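import Pool.Agent.W912.ND.Defs

/-!
# The chain of questions is computed by a small circuit
-/

set_option autoImplicit false

namespace Pool.Agent.W917.ND

open Pool.Agent.NPC Pool.Agent.H620R2.Gauge Pool.Agent.H622R2.Ckt
open Pool.Agent.W912.SE (cw)
open Pool.Agent.W912.ND (chain)

/-- the wires that carry node `i` -/
def prev (m : ℕ) : ℕ → List Wire
  | 0 => List.replicate m (.cst false)
  | i + 1 => (List.range m).map (fun j => .gate (i * m + j))

/-- the gate for bit `j` of node `i + 1` -/
def gt (m D i j : ℕ) : Gate :=
  .ask (List.replicate j (.cst true) ++ .cst false :: ((List.range D).map .inp ++ prev m i))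

/-- all gates -/
def gts (m D t : ℕ) : List Gate := (List.range t).flatMap (fun i => (List.range m).map (gt m D i))

theorem prev_length (m i : ℕ) : (prev m i).length = m := by
  cases i <;> simp [prev]

theorem chain_length (A : Oracle) (z : List Bool) (m i : ℕ) : (chain A z m i).length = m := by
  cases i <;> simp [chain]

theorem gt_size (m D i j : ℕ) : (gt m D i j).size = j + D + m + 2 := by
  simp [gt, Gate.size, prev_length]
  omega

theorem size_row (m D i k : ℕ) (hk : k ≤ m) :
    (((List.range k).map (gt m D i)).map Gate.size).sum ≤ k * (D + 2 * m + 2) := by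
  induction k with
  | zero => simp
  | succ k ih =>
    rw [List.range_succ, List.map_append, List.map_append, List.sum_append]
    have h1 := ih (by omega)
    simp only [List.map_cons, List.map_nil, List.sum_cons, List.sum_nil, gt_size]
    have : (k + 1) * (D + 2 * m + 2) = k * (D + 2 * m + 2) + (D + 2 * m + 2) := by ring
    omega

theorem size_gts (m D t : ℕ) :
    ((gts m D t).map Gate.size).sum ≤ t * m * (D + 2 * m + 2) := by
  induction t with
  | zero => simp [gts]
  | succ t ih =>
    have h : gts m D (t + 1) = gts m D t ++ (List.range m).map (gt m D t) := by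
      simp [gts, List.range_succ]
    rw [h, List.map_append, List.sum_append]
    have h1 := size_row m D t m le_rfl
    have : (t + 1) * m * (D + 2 * m + 2) = t * m * (D + 2 * m + 2) + m * (D + 2 * m + 2) := by
      ring
    omega

theorem inp_map (z v : List Bool) (D : ℕ) (hz : z.length = D) :
    ((List.range D).map Wire.inp).map (Wire.val z v) = z := by
  subst hz
  apply List.ext_getElem
  · simp
  · intro n h1 h2
    simp [Wire.val, h2]

theorem gt_val (A : Oracle) (z v : List Bool) (m D i j : ℕ) (hz : z.length = D)
    (hp : (prev m i).map (Wire.val z v) = chain A z m i) :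
    (gt m D i j).val A z v = A (cw j z (chain A z m i)) := by
  have h := inp_map z v D hz
  simp only [gt, Gate.val, cw]
  congr 1
  rw [List.map_append, List.map_cons, List.map_append, h, hp]
  simp [Wire.val]

theorem fold_row (A : Oracle) (z v : List Bool) (m D i : ℕ) (hz : z.length = D)
    (hp : ∀ w, (prev m i).map (Wire.val z (v ++ w)) = chain A z m i) (k : ℕ) :
    ((List.range k).map (gt m D i)).foldl (fun v g => v ++ [g.val A z v]) v =
      v ++ (List.range k).map (fun j => A (cw j z (chain A z m i))) := by
  induction k with
  | zero => simp
  | succ k ih =>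
    rw [List.range_succ, List.map_append, List.foldl_append, ih]
    simp only [List.map_cons, List.map_nil, List.foldl_cons, List.foldl_nil, List.map_append]
    rw [gt_val A z _ m D i k hz (hp _)]
    simp

/-- the values of all gates -/
def vals (A : Oracle) (z : List Bool) (m t : ℕ) : List Bool :=
  (List.range t).flatMap (fun i => chain A z m (i + 1))

theorem vals_succ (A : Oracle) (z : List Bool) (m t : ℕ) :
    vals A z m (t + 1) = vals A z m t ++ chain A z m (t + 1) := by
  simp [vals, List.range_succ]

theorem vals_length (A : Oracle) (z : List Bool) (m t : ℕ) : (vals A z m t).length = t * m := by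
  induction t with
  | zero => simp [vals]
  | succ t ih =>
    rw [vals_succ, List.length_append, ih, chain_length]
    ring

theorem vals_getD (A : Oracle) (z w : List Bool) (m t j : ℕ) (hj : j < m) :
    (vals A z m (t + 1) ++ w).getD (t * m + j) false = (chain A z m (t + 1)).getD j false := by
  rw [vals_succ, List.append_assoc, List.getD_append_right _ _ _ _ (by rw [vals_length]; omega),
    vals_length, List.getD_append _ _ _ _ (by rw [chain_length]; omega)]
  congr 1
  omega

theorem prev_val (A : Oracle) (z : List Bool) (m t : ℕ) (w : List Bool) :
    (prev m t).map (Wire.val z (vals A z m t ++ w)) = chain A z m t := by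
  cases t with
  | zero => simp [prev, chain, Wire.val]
  | succ t =>
    apply List.ext_getElem
    · simp [prev_length, chain_length]
    · intro n h1 h2
      have hn : n < m := by rwa [chain_length] at h2
      have h3 := vals_getD A z w m t n hn
      rw [List.getD_eq_getElem _ _ h2] at h3
      simp only [prev, List.map_map, List.getElem_map, List.getElem_range, Function.comp, Wire.val]
      exact h3

theorem gateVals_gts (A : Oracle) (z : List Bool) (m D t : ℕ) (hz : z.length = D) :
    gateVals A z (gts m D t) = vals A z m t := by
  induction t with
  | zero => simp [gts, vals, gateVals]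
  | succ t ih =>
    have h : gts m D (t + 1) = gts m D t ++ (List.range m).map (gt m D t) := by
      simp [gts, List.range_succ]
    unfold gateVals at ih ⊢
    rw [h, List.foldl_append, ih,
      fold_row A z (vals A z m t) m D t hz (prev_val A z m t) m, vals_succ]
    rfl

/-- The chain of length `t` is computed by a small circuit. -/
theorem s_upc : Pool.Agent.W912.ND.S_UPC := by
  intro m t D hm ht
  refine ⟨⟨gts m D t, .gate ((t - 1) * m)⟩, size_gts m D t, ?_⟩
  intro A z hz
  obtain ⟨t, rfl⟩ : ∃ s, t = s + 1 := ⟨t - 1, by omega⟩
  have h := vals_getD A z [] m t 0 (by omega)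
  simp only [Circuit.eval, gateVals_gts A z m D (t + 1) hz, Wire.val]
  simpa using h

end Pool.Agent.W917.ND
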